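import Pool.Agent.Helper57.BG.Stmts

/-! Block G9 of (A'): the dispersion bracket. -/

set_option autoImplicit false

open Finset

namespace Pool.Agent.Helper9.BG

open Pool.Agent.Helper57.BG

theorem tsum_class (f : ℝ → ℝ) (q : ℕ) (hq : 0 < q) (m0 : ℤ) [DecidablePred fun m : ℤ => (q : ℤ) ∣ m - m0] :
    (∑' m : ℤ, if (q : ℤ) ∣ m - m0 then f m else 0) = ∑' j : ℤ, f (m0 + q * j) := by
  have hinj : Function.Injective fun j : ℤ => m0 + (q : ℤ) * j := by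
    intro a b h
    have h1 : (q : ℤ) * a = q * b := add_left_cancel h
    have hq0 : (q : ℤ) ≠ 0 := by exact_mod_cast hq.ne'
    exact mul_left_cancel₀ hq0 h1
  have h := hinj.tsum_eq (f := fun m : ℤ => if (q : ℤ) ∣ m - m0 then f m else 0) (by
    intro m hm
    by_cases h1 : (q : ℤ) ∣ m - m0
    · obtain ⟨j, hj⟩ := h1
      exact ⟨j, by simp only; linarith⟩
    · exfalso
      apply hm
      simp only
      rw [if_neg h1])
  rw [← h]
  refine tsum_congr fun j => ?_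
  rw [if_pos (by simp)]
  push_cast
  rfl

/-- a solution of the congruence makes `l` and `m` invertible -/
theorem cop_of {k m l : ℤ} {u : ℕ} (hk : Int.gcd k u = 1) (h : (u : ℤ) ∣ m * l - k) :
    IsCoprime (u : ℤ) l ∧ IsCoprime (u : ℤ) m := by
  have h1 : IsCoprime (u : ℤ) (m * l) := by
    have h2 : IsCoprime k (u : ℤ) := Int.isCoprime_iff_gcd_eq_one.2 hk
    obtain ⟨c, hc⟩ := h
    have h3 : m * l = k + (u : ℤ) * c := by linarith
    rw [h3]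
    exact (IsCoprime.add_mul_left_left h2 c).symm
  exact ⟨IsCoprime.of_mul_right_right h1, IsCoprime.of_mul_right_left h1⟩

theorem cls {k m m0 l : ℤ} {u : ℕ} (hk : Int.gcd k u = 1) (h0 : (u : ℤ) ∣ m0 * l - k) :
    (u : ℤ) ∣ m * l - k ↔ (u : ℤ) ∣ m - m0 := by
  constructor
  · intro h
    have h1 : (u : ℤ) ∣ (m - m0) * l := by
      have := dvd_sub h h0
      have e : m * l - k - (m0 * l - k) = (m - m0) * l := by ring
      rwa [e] at this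
    exact (cop_of hk h0).1.dvd_of_dvd_mul_right h1
  · intro h
    have e : m * l - k = (m - m0) * l + (m0 * l - k) := by ring
    rw [e]
    exact dvd_add (h.mul_right l) h0

theorem NN_eq (Y : ℝ) {k : ℤ} {u l u' l' : ℕ} (hu : 0 < u) (hu' : 0 < u') (hk : Int.gcd k u = 1)
    (hk' : Int.gcd k u' = 1) {m0 : ℤ} (h0 : (u : ℤ) ∣ m0 * l - k) (h0' : (u' : ℤ) ∣ m0 * l' - k) :
    NN Y k u l u' l' = ∑' j : ℤ, fj Y (m0 + (Nat.lcm u u' : ℕ) * j) := by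
  classical
  rw [← tsum_class (fj Y) (Nat.lcm u u') (Nat.lcm_pos hu hu') m0]
  unfold NN
  refine tsum_congr fun m => ?_
  have h : ((u : ℤ) ∣ m * l - k ∧ (u' : ℤ) ∣ m * l' - k) ↔ ((Nat.lcm u u' : ℕ) : ℤ) ∣ m - m0 := by
    rw [cls hk h0, cls hk' h0', Int.natCast_dvd, Int.natCast_dvd, Int.natCast_dvd]
    exact ⟨fun h => Nat.lcm_dvd h.1 h.2,
      fun h => ⟨(Nat.dvd_lcm_left _ _).trans h, (Nat.dvd_lcm_right _ _).trans h⟩⟩
  by_cases h1 : (u : ℤ) ∣ m * l - k ∧ (u' : ℤ) ∣ m * l' - k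
  · rw [if_pos h1, if_pos (h.1 h1)]
  · rw [if_neg h1, if_neg (fun h2 => h1 (h.2 h2))]

theorem NN_zero (Y : ℝ) {k : ℤ} {u l u' l' : ℕ}
    (h : ∀ m : ℤ, ¬ ((u : ℤ) ∣ m * l - k ∧ (u' : ℤ) ∣ m * l' - k)) : NN Y k u l u' l' = 0 := by
  unfold NN
  exact (tsum_congr fun m => if_neg (h m)).trans tsum_zero

theorem NN_nonneg (Y : ℝ) (k : ℤ) (u l u' l' : ℕ) : 0 ≤ NN Y k u l u' l' := by
  unfold NN
  refine tsum_nonneg fun m => ?_
  split_ifs
  · exact sq_nonneg _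
  · exact le_rfl

theorem dvd_sub_of {k m : ℤ} {l l' : ℤ} {g : ℕ} (hk : Int.gcd k g = 1) (h : (g : ℤ) ∣ m * l - k)
    (h' : (g : ℤ) ∣ m * l' - k) : (g : ℤ) ∣ l' - l := by
  have h1 : (g : ℤ) ∣ m * (l' - l) := by
    have := dvd_sub h' h
    have e : m * l' - k - (m * l - k) = m * (l' - l) := by ring
    rwa [e] at this
  exact (cop_of hk h).2.dvd_of_dvd_mul_left h1

/-- symmetry -/
theorem br_symm : Stmt_br_symm := by
  intro Y k q1 q2 l q2' l'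
  have h : ∀ u l u' l', NN Y k u l u' l' = NN Y k u' l' u l := by
    intro u l u' l'
    unfold NN
    refine tsum_congr fun m => ?_
    congr 1
    exact propext and_comm
  unfold Br
  rw [h (q1 * q2') l' (q1 * q2) l, h (q1 * q2') l' q1 l, h q1 l' (q1 * q2) l, h q1 l' q1 l]
  ring

theorem br0 : Stmt_br0 := by
  intro Y k q1 q2 l q2' l' hk h
  have key : ∀ u u' : ℕ, (q1 : ℤ) ∣ u → (q1 : ℤ) ∣ u' → NN Y k u l u' l' = 0 := by
    intro u u' hu hu'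
    refine NN_zero Y fun m hm => h ?_
    exact dvd_sub_of hk (hu.trans hm.1) (hu'.trans hm.2)
  unfold Br
  rw [key, key, key, key]
  · ring
  all_goals first | exact dvd_refl _ | exact_mod_cast dvd_mul_right _ _

theorem brB (hE : Stmt_FJ_exact) (hL : Stmt_FJ_le) : Stmt_brB := by
  intro Y hY k q1 q2 l q2' l' h1 h2 h2' hl hl' hk hk' hY1 hY2
  have hq1 : (0 : ℝ) < q1 := by exact_mod_cast h1
  have hq2 : (0 : ℝ) < q2 := by exact_mod_cast h2
  have hq2' : (0 : ℝ) < q2' := by exact_mod_cast h2'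
  have hg0 : 0 < Nat.gcd q2 q2' := Nat.gcd_pos_of_pos_left _ h2
  have hk1 : Int.gcd k q1 = 1 := by
    rw [← Int.isCoprime_iff_gcd_eq_one] at hk ⊢
    push_cast at hk
    exact IsCoprime.of_mul_right_left hk
  by_cases hd : (q1 : ℤ) ∣ (l' : ℤ) - l
  swap
  · rw [br0 Y k q1 q2 l q2' l' hk1 hd, abs_zero, if_neg hd, add_zero]
    split_ifs <;> positivity
  rw [if_pos hd]
  set B : ℝ := Y / ((q1 : ℝ) * q2 * q2') with hB
  have hB0 : 0 ≤ B := by positivity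
  have hYq1 : (q1 : ℝ) ≤ Y := by
    refine le_trans ?_ hY1
    exact_mod_cast Nat.le_mul_of_pos_right _ h2
  -- the four terms
  have hgk : Int.gcd k ((q1 * Nat.gcd q2 q2' : ℕ) : ℤ) = 1 := by
    rw [← Int.isCoprime_iff_gcd_eq_one] at hk ⊢
    obtain ⟨c, hc⟩ := Nat.gcd_dvd_left q2 q2'
    have e : ((q1 * q2 : ℕ) : ℤ) = ((q1 * Nat.gcd q2 q2' : ℕ) : ℤ) * c := by
      conv_lhs => rw [hc]
      push_cast
      ring
    rw [e] at hk
    exact IsCoprime.of_mul_right_left hk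
  have n1 : NN Y k (q1 * q2) l (q1 * q2') l' ≤
      if ((q1 * Nat.gcd q2 q2' : ℕ) : ℤ) ∣ (l' : ℤ) - l then
        Y * (Nat.gcd q2 q2' : ℕ) / ((q1 : ℝ) * q2 * q2') + 1 else 0 := by
    by_cases hm : ∃ m : ℤ, (((q1 * q2 : ℕ) : ℤ) ∣ m * l - k ∧ ((q1 * q2' : ℕ) : ℤ) ∣ m * l' - k)
    · obtain ⟨m0, h0, h0'⟩ := hm
      have d1 : ((q1 * Nat.gcd q2 q2' : ℕ) : ℤ) ∣ ((q1 * q2 : ℕ) : ℤ) := by
        exact_mod_cast Nat.mul_dvd_mul_left q1 (Nat.gcd_dvd_left q2 q2')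
      have d2 : ((q1 * Nat.gcd q2 q2' : ℕ) : ℤ) ∣ ((q1 * q2' : ℕ) : ℤ) := by
        exact_mod_cast Nat.mul_dvd_mul_left q1 (Nat.gcd_dvd_right q2 q2')
      rw [if_pos (dvd_sub_of hgk (d1.trans h0) (d2.trans h0')),
        NN_eq Y (Nat.mul_pos h1 h2) (Nat.mul_pos h1 h2') hk hk' h0 h0']
      have hlp : 0 < Nat.lcm (q1 * q2) (q1 * q2') :=
        Nat.lcm_pos (Nat.mul_pos h1 h2) (Nat.mul_pos h1 h2')
      refine (hL Y hY _ hlp m0).2.trans (le_of_eq ?_)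
      congr 1
      have e1 : Nat.lcm (q1 * q2) (q1 * q2') * Nat.gcd q2 q2' = q1 * q2 * q2' := by
        have h3 := Nat.gcd_mul_lcm (q1 * q2) (q1 * q2')
        rw [Nat.gcd_mul_left] at h3
        have h4 : q1 * (Nat.lcm (q1 * q2) (q1 * q2') * Nat.gcd q2 q2') = q1 * (q1 * q2 * q2') := by
          calc q1 * (Nat.lcm (q1 * q2) (q1 * q2') * Nat.gcd q2 q2') =
                q1 * Nat.gcd q2 q2' * Nat.lcm (q1 * q2) (q1 * q2') := by ring
            _ = q1 * q2 * (q1 * q2') := h3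
            _ = _ := by ring
        exact Nat.eq_of_mul_eq_mul_left h1 h4
      have e2 : ((Nat.lcm (q1 * q2) (q1 * q2') : ℕ) : ℝ) * ((Nat.gcd q2 q2' : ℕ) : ℝ) =
          (q1 : ℝ) * q2 * q2' := by exact_mod_cast e1
      have hlp' : (0 : ℝ) < ((Nat.lcm (q1 * q2) (q1 * q2') : ℕ) : ℝ) := by exact_mod_cast hlp
      have hg0' : (0 : ℝ) < ((Nat.gcd q2 q2' : ℕ) : ℝ) := by exact_mod_cast hg0
      rw [← e2]
      field_simp
    · rw [NN_zero Y (fun m h => hm ⟨m, h⟩)]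
      split_ifs <;> positivity
  have gen : ∀ (u u' q : ℕ), 0 < u → 0 < u' → Int.gcd k u = 1 → Int.gcd k u' = 1 →
      Nat.lcm u u' = q → (q : ℝ) ≤ Y → NN Y k u l u' l' ≤ Y / q := by
    intro u u' q hu hu' hku hku' hlcm hqY
    by_cases hm : ∃ m : ℤ, ((u : ℤ) ∣ m * l - k ∧ (u' : ℤ) ∣ m * l' - k)
    · obtain ⟨m0, h0, h0'⟩ := hm
      rw [NN_eq Y hu hu' hku hku' h0 h0', hlcm]
      have hq : 0 < q := hlcm ▸ Nat.lcm_pos hu hu'
      rw [(hE Y q hq hqY m0).tsum_eq]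
    · rw [NN_zero Y (fun m h => hm ⟨m, h⟩)]
      positivity
  have n2 := gen (q1 * q2) q1 (q1 * q2) (Nat.mul_pos h1 h2) h1 hk hk1
    (Nat.lcm_eq_left (dvd_mul_right _ _)) hY1
  have n3 := gen q1 (q1 * q2') (q1 * q2') h1 (Nat.mul_pos h1 h2') hk1 hk'
    (Nat.lcm_eq_right (dvd_mul_right _ _)) hY2
  have n4 := gen q1 q1 q1 h1 h1 hk1 hk1 (Nat.lcm_self _) hYq1
  have p1 := NN_nonneg Y k (q1 * q2) l (q1 * q2') l'
  have p2 := NN_nonneg Y k (q1 * q2) l q1 l'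
  have p3 := NN_nonneg Y k q1 l (q1 * q2') l'
  have p4 := NN_nonneg Y k q1 l q1 l'
  have m2 : 1 / (q2' : ℝ) * NN Y k (q1 * q2) l q1 l' ≤ B := by
    calc 1 / (q2' : ℝ) * NN Y k (q1 * q2) l q1 l' ≤ 1 / (q2' : ℝ) * (Y / ((q1 * q2 : ℕ) : ℝ)) := by
          gcongr
      _ = B := by
          rw [hB]
          push_cast
          field_simp
  have m3 : 1 / (q2 : ℝ) * NN Y k q1 l (q1 * q2') l' ≤ B := by
    calc 1 / (q2 : ℝ) * NN Y k q1 l (q1 * q2') l' ≤ 1 / (q2 : ℝ) * (Y / ((q1 * q2' : ℕ) : ℝ)) := by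
          gcongr
      _ = B := by
          rw [hB]
          push_cast
          field_simp
  have m4 : 1 / ((q2 : ℝ) * q2') * NN Y k q1 l q1 l' ≤ B := by
    calc 1 / ((q2 : ℝ) * q2') * NN Y k q1 l q1 l' ≤ 1 / ((q2 : ℝ) * q2') * (Y / (q1 : ℝ)) := by
          gcongr
      _ = B := by
          rw [hB]
          field_simp
  have r2 : 0 ≤ 1 / (q2' : ℝ) * NN Y k (q1 * q2) l q1 l' := by positivity
  have r3 : 0 ≤ 1 / (q2 : ℝ) * NN Y k q1 l (q1 * q2') l' := by positivity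
  have r4 : 0 ≤ 1 / ((q2 : ℝ) * q2') * NN Y k q1 l q1 l' := by positivity
  unfold Br
  set A : ℝ := if ((q1 * Nat.gcd q2 q2' : ℕ) : ℤ) ∣ (l' : ℤ) - l then
        Y * (Nat.gcd q2 q2' : ℕ) / ((q1 : ℝ) * q2 * q2') + 1 else 0 with hA
  have hA0 : 0 ≤ A := p1.trans n1
  rw [abs_le]
  constructor <;> linarith

end Pool.Agent.Helper9.BG
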